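import Mathlib
import Pool.Agent.Work.MP_1a3e71_nt.Defs
import Pool.Agent.Work.MP_1a3e71_nt.Concl

/-!
# Integrality of the binomial sum with weight `154 k + 15`

Let `a_n = S_n / (10 n (2n+1) binom(2n,n))`, where
`S_n = ∑_{j<n} (154 j + 15) c_j (-32768)^(n-1-j)` and `c_j = (6j)!/((3j)! j!^3)`.
For every `n > 1`: if `2n+1` is not a power of `5` then `(-1)^(n-1) a_n` is a positive integer, and
if `2n+1` is a power of `5` then `5 a_n` is an integer not divisible by `5`.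
-/

namespace MP1a3e71

open Finset MP18afd0

theorem seqA_int (n : ℕ) (hn : 1 ≤ n) (h : ∀ m : ℕ, 1 ≤ m → 2 * (n + 1) + 1 ≠ 5 ^ m) :
    ∃ z : ℤ, seqA (n + 1) = z := by
  apply int_of_mem
  intro p hp
  have hfact : Fact p.Prime := ⟨hp⟩
  rw [seqA_eq]
  by_cases h5 : p = 5
  · subst h5
    have h1 := xT_dv n h
    rw [Dv_iff, pow_one] at h1
    exact h1
  · have hu : Un p (5 : ℚ) := by
      have : ¬ p ∣ 5 := by
        intro hd
        exact h5 ((Nat.prime_dvd_prime_iff_eq hp (by norm_num)).1 hd)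
      exact_mod_cast Un_nat this
    apply mem_div_of_Un _ hu
    rcases hp.eq_two_or_odd with rfl | ho
    · exact xT_mem_two n hn
    · exact xT_mem_odd ho n

theorem seqA_sign (n : ℕ) : 0 < (-1) ^ n * seqA (n + 1) := by
  have h1 := sign_pos n
  have h2 : (0 : ℚ) < 10 * ((n + 1 : ℕ) : ℚ) * (2 * ((n + 1 : ℕ) : ℚ) + 1) *
      (Nat.choose (2 * (n + 1)) (n + 1) : ℚ) := by
    have := Nat.choose_pos (show n + 1 ≤ 2 * (n + 1) by omega)
    positivity
  unfold seqA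
  rw [mul_div_assoc']
  exact div_pos h1 h2

end MP1a3e71

open MP1a3e71 MP18afd0 in
/-- Full answer to Q1. -/
theorem Pool.Agent.Results.MP_1a3e71_nt.IntegralityQ1.result :
    ∀ n : ℕ, 1 < n →
      ((¬ ∃ m : ℕ, 1 ≤ m ∧ 2 * n + 1 = 5 ^ m) →
        ∃ z : ℤ, 0 < z ∧ (-1) ^ (n - 1) * seqA n = (z : ℚ)) ∧
      ((∃ m : ℕ, 1 ≤ m ∧ 2 * n + 1 = 5 ^ m) →
        ∃ z : ℤ, 5 * seqA n = (z : ℚ) ∧ ¬ (5 : ℤ) ∣ z) := by
  intro n hn
  obtain ⟨k, rfl⟩ : ∃ k, n = k + 1 := ⟨n - 1, by omega⟩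
  rw [Nat.add_sub_cancel]
  constructor
  · intro h
    obtain ⟨z, hz⟩ := seqA_int k (by omega) (fun m hm he => h ⟨m, hm, he⟩)
    refine ⟨(-1) ^ k * z, ?_, ?_⟩
    · have h1 := seqA_sign k
      rw [hz] at h1
      exact_mod_cast h1
    · rw [hz]; push_cast; ring
  · rintro ⟨m, hm, he⟩
    obtain ⟨z, hz⟩ := xT_int k (by omega)
    refine ⟨z, ?_, ?_⟩
    · rw [seqA_eq, ← hz]; ring
    · rintro ⟨w, rfl⟩
      apply xT_not_dv k m hm he
      rw [hz]
      have := five_mem (int_mem (p := 5) w)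
      refine this.congr ?_
      push_cast
      ring
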